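import Pool.Agent.Helper26.WR.Stmts

set_option autoImplicit false

/-! # Herbrand's theorem for an abstract intermediate field -/

namespace Pool.Agent.Helper26.WR

open Pool.Agent.Helper21.DN

universe u

theorem topb_cond {G H : Type u} [Group G] [Fintype G] [Group H] [Fintype H] (φ : G ≃* H)
    (f : G → ℕ) (g : H → ℕ) (h : ∀ x, g (φ x) = f x) : cond f = cond g := by
  classical
  have h1 : S1 f = S1 g := by
    unfold S1
    refine Finset.sum_equiv φ.toEquiv ?_ ?_
    · intro i
      simp
    · intro i _
      exact (h i).symm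
  have h2 : x0 f = x0 g := by
    unfold x0
    apply le_antisymm
    · apply Finset.sup_le
      intro b hb
      rw [← h b]
      apply Finset.le_sup (f := g)
      rw [Finset.mem_filter] at hb ⊢
      exact ⟨Finset.mem_univ _, fun h0 => hb.2 (φ.map_eq_one_iff.1 h0)⟩
    · apply Finset.sup_le
      intro b hb
      have h0 : g b = f (φ.symm b) := by
        rw [← h, MulEquiv.apply_symm_apply]
      rw [h0]
      apply Finset.le_sup (f := f)
      rw [Finset.mem_filter] at hb ⊢
      exact ⟨Finset.mem_univ _, fun h0 => hb.2 (φ.symm.map_eq_one_iff.1 h0)⟩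
  have h3 : Fintype.card G = Fintype.card H := Fintype.card_congr φ.toEquiv
  unfold Pool.Agent.Helper21.DN.cond
  rw [h1, h2, h3]

/-- the isomorphism of an extension with its image -/
theorem topb_equiv (F N M : Type u) [Field F] [Field N] [Field M] [Algebra F N] [Algebra F M]
    [Algebra N M] [IsScalarTower F N M] :
    ∃ E : IntermediateField F M, ∃ e : N ≃ₐ[F] E,
      ∀ x : N, ((e x : E) : M) = algebraMap N M x := by
  let f : N →ₐ[F] (IsScalarTower.toAlgHom F N M).fieldRange :=
    { toFun := fun x => ⟨algebraMap N M x, ⟨x, rfl⟩⟩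
      map_one' := by
        apply Subtype.ext
        simp
      map_mul' := by
        intro x y
        apply Subtype.ext
        simp
      map_zero' := by
        apply Subtype.ext
        simp
      map_add' := by
        intro x y
        apply Subtype.ext
        simp
      commutes' := by
        intro r
        apply Subtype.ext
        exact (IsScalarTower.algebraMap_apply F N M r).symm }
  refine ⟨(IsScalarTower.toAlgHom F N M).fieldRange, AlgEquiv.ofBijective f ⟨?_, ?_⟩, ?_⟩
  · intro x y hxy
    have : algebraMap N M x = algebraMap N M y := congrArg Subtype.val hxy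
    exact (algebraMap N M).injective this
  · rintro ⟨y, x, hx⟩
    exact ⟨x, Subtype.ext hx⟩
  · intro x
    rfl

theorem st_TOPB (hHBF : ST_HBF.{u}) : ST_TOPB.{u} := by
  intro p hp k F N M _ _ _ _ _ _ _ _ _ _ _ _ _ κ v hram hpg vN hTV hvN hnt
  obtain ⟨E, e, he⟩ := topb_equiv F N M
  have hNF : Normal F N := IsGalois.to_normal
  have hNE : Normal F E := Normal.of_algEquiv e
  set vE : AddValuation E (WithTop ℤ) := vN.comap (e.symm : E →+* N) with hvE
  have hvEx : ∀ x : E, vE x = vN (e.symm x) := fun x => rfl
  have hfr : Module.finrank E M = Module.finrank N M := by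
    refine (Algebra.finrank_eq_of_equiv_equiv (e : N ≃+* E) (RingEquiv.refl M) ?_).symm
    ext x
    exact he x
  have hTVE : TV ((algebraMap F E).comp κ) vE := by
    refine ⟨?_, ?_, ?_⟩
    · obtain ⟨π, hπ⟩ := hTV.unif
      refine ⟨e π, ?_⟩
      rw [hvEx, AlgEquiv.symm_apply_apply, hπ]
    · intro c hc
      have h1 := hTV.alg c hc
      rw [hvEx, RingHom.comp_apply, AlgEquiv.commutes]
      exact h1
    · intro x hx
      obtain ⟨c, hc⟩ := hTV.const (e.symm x) (by rw [← hvEx]; exact hx)
      refine ⟨c, ?_⟩
      rw [hvEx, map_sub, RingHom.comp_apply, AlgEquiv.commutes]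
      exact hc
  have hvE2 : ∀ x : E, v (x : M) = Module.finrank E M • vE x := by
    intro x
    rw [hfr, hvEx, ← hvN, ← he, AlgEquiv.apply_symm_apply]
  have hfix : ∀ σ : M ≃ₐ[F] M, σ ∈ E.fixingSubgroup ↔ AlgEquiv.restrictNormalHom N σ = 1 := by
    intro σ
    rw [IntermediateField.mem_fixingSubgroup_iff]
    constructor
    · intro h
      apply AlgEquiv.ext
      intro x
      apply (algebraMap N M).injective
      have h1 := AlgEquiv.restrictNormal_commutes σ N x
      have h2 : (AlgEquiv.restrictNormalHom N σ) x = (σ.restrictNormal N) x := rfl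
      rw [h2, h1]
      have h3 := h (algebraMap N M x) (by rw [← he]; exact (e x).2)
      rw [h3]
      rfl
    · intro h x hx
      obtain ⟨y, hy⟩ := e.surjective ⟨x, hx⟩
      have hy' : algebraMap N M y = x := by
        rw [← he, hy]
      have h1 := AlgEquiv.restrictNormal_commutes σ N y
      have h2 : (AlgEquiv.restrictNormalHom N σ) y = (σ.restrictNormal N) y := rfl
      rw [← h2, h, hy'] at h1
      rw [← h1, ← hy']
      rfl
  have hcond : cond (fun τ : E ≃ₐ[F] E => s vE τ) = cond (fun τ : N ≃ₐ[F] N => s vN τ) := by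
    refine topb_cond (AlgEquiv.autCongr e.symm) _ _ ?_
    intro τ
    show s vN _ = s vE _
    unfold s
    have hset : {i : ℕ | ∀ x : N, vN x + ((i : ℤ) : WithTop ℤ) ≤
        vN ((AlgEquiv.autCongr e.symm τ) x - x)} =
        {i : ℕ | ∀ x : E, vE x + ((i : ℤ) : WithTop ℤ) ≤ vE (τ x - x)} := by
      ext i
      constructor
      · intro h x
        have h1 := h (e.symm x)
        rw [hvEx, hvEx, map_sub]
        have h2 : (AlgEquiv.autCongr e.symm τ) (e.symm x) = e.symm (τ x) := by
          show e.symm (τ (e.symm.symm (e.symm x))) = e.symm (τ x)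
          rw [AlgEquiv.symm_symm, AlgEquiv.apply_symm_apply]
        rw [← h2]
        exact h1
      · intro h x
        have h1 := h (e x)
        rw [hvEx, hvEx, map_sub, AlgEquiv.symm_apply_apply] at h1
        have h2 : (AlgEquiv.autCongr e.symm τ) x = e.symm (τ (e x)) := by
          show e.symm (τ (e.symm.symm x)) = e.symm (τ (e x))
          rw [AlgEquiv.symm_symm]
        rw [h2]
        exact h1
    rw [hset]
  have hex : ∃ σ : M ≃ₐ[F] M, σ ∉ E.fixingSubgroup := by
    obtain ⟨τ, hτ⟩ := exists_ne (1 : N ≃ₐ[F] N)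
    obtain ⟨σ, hσ⟩ := AlgEquiv.restrictNormalHom_surjective (F := F) (K₁ := N) M τ
    refine ⟨σ, ?_⟩
    rw [hfix, hσ]
    exact hτ
  have key := hHBF p k F M κ v hram hpg E vE hTVE hvE2 hex
  rw [hcond] at key
  refine ⟨?_, ?_⟩
  · intro σ hσ
    apply key.1
    rw [hfix]
    exact hσ
  · obtain ⟨σ, h1, h2⟩ := key.2
    rw [hfix] at h1
    exact ⟨σ, h1, h2⟩

end Pool.Agent.Helper26.WR
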